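import Pool.Agent.Lib.MP_4b554f_an.One.Site

/-!
Degenerate rows, and the forbidden words.
-/

set_option autoImplicit false
set_option linter.unusedSimpArgs false
set_option linter.unnecessarySeqFocus false
set_option linter.unusedVariables false
set_option linter.unusedSectionVars false

namespace Pool.Agent.Lib.MP_4b554f_an.One

open Pool.Agent.Lib.MP_4b554f_an.All

variable [Dim]

theorem reg_down {α : Type*} (T : ℤ) (g : V → α) (j : I)
    (hg : ∀ x : V, (∀ i, T ≤ x i) → g (x - ee j) = g x) (x : V) (hx : ∀ i, T ≤ x i) :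
    ∀ n : ℕ, T ≤ x j - n → g (x - (n : ℤ) • ee j) = g x := by
  intro n
  induction n with
  | zero => simp
  | succ n ih =>
    intro h1
    have e : x - ((n + 1 : ℕ) : ℤ) • ee j = x - (n : ℤ) • ee j - ee j := by
      push_cast; rw [add_smul]; simp; abel
    push_cast at h1
    rw [e, hg, ih (by omega)]
    intro i
    by_cases hi : i = j
    · subst hi; simp; omega
    · simpa [ee_ne hi] using hx i

theorem reg_const {α : Type*} (T : ℤ) (g : V → α) (p : I → Prop)
    (hg : ∀ j, p j → ∀ x : V, (∀ i, T ≤ x i) → g (x - ee j) = g x)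
    (x x' : V) (hx : ∀ i, T ≤ x i) (hx' : ∀ i, T ≤ x' i) (h2 : ∀ j, ¬ p j → x j = x' j) :
    g x = g x' := by
  have key : ∀ k (W : V), (∀ i, T ≤ W i) → W k = x k → g (W + (x' k - x k) • ee k) = g W := by
    intro k W hT hW
    by_cases hk : p k
    · rcases le_total (x k) (x' k) with h4 | h4
      · have := reg_down T g k (hg k hk) (W + (x' k - x k) • ee k) (fun i => by
          have := hT i
          by_cases hi : i = k
          · subst hi; simp; omega
          · simpa [ee_ne hi] using this) (x' k - x k).toNat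
        rw [Int.toNat_of_nonneg (by omega), add_sub_cancel_right] at this
        refine (this ?_).symm
        simpa using hT k
      · have := reg_down T g k (hg k hk) W hT (x k - x' k).toNat
        rw [Int.toNat_of_nonneg (by omega), sub_eq_add_neg W, ← neg_smul, neg_sub] at this
        refine this ?_
        have := hx' k
        omega
    · rw [h2 k hk]; simp
  refine walk g x x' (fun k W h3 hW => key k W (fun i => ?_) hW)
  rcases h3 i with h | h <;> rw [h]
  exacts [hx i, hx' i]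

theorem ray_back {j : I} {w u : V → Prop} {B : V → BC} {Y : V → Prop}
    (hY : Ray j w B u Y) : ∀ (s : ℕ) (x : V), Y x → cn (B (x - (s : ℤ) • ee j)) →
      ∃ i : ℕ, i ≤ s ∧ u (x - ((i : ℤ) + 1) • ee j) := by
  intro s
  induction s with
  | zero =>
    intro x h1 h2
    rcases ((hY x).1.1 h1).2.2 with h3 | h3
    · exact ⟨0, le_rfl, by simpa using h3.2⟩
    · exact absurd (by simpa using h2) h3.1
  | succ s ih =>
    intro x h1 h2
    rcases ((hY x).1.1 h1).2.2 with h3 | h3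
    · exact ⟨0, by omega, by simpa using h3.2⟩
    · obtain ⟨i, h4, h5⟩ := ih _ h3.2 (by
        rwa [show x - ee j - (s : ℤ) • ee j = x - ((s + 1 : ℕ) : ℤ) • ee j by
          push_cast; rw [add_smul]; simp; abel])
      refine ⟨i + 1, by omega, ?_⟩
      rwa [show x - (((i + 1 : ℕ) : ℤ) + 1) • ee j = x - ee j - ((i : ℤ) + 1) • ee j by
          push_cast; rw [add_smul _ 1]; simp; abel]

/-- With the `j`-th coordinate fixed, the shear reaches all far points of the background. -/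
def Onto (j : I) (ψ : V ≃+ V) : Prop := ∀ a T : ℤ, ∃ T' : ℤ, ∀ y : BV, (∀ k, T' ≤ y k) →
  ∃ x : V, x j = a ∧ (∀ i, i ≠ j → T ≤ x i) ∧ res (ψ x) = y

theorem psa_on (hn : 0 < Dim.n) : Onto 0 psa := by
  intro a T
  refine ⟨|T| + |a|, fun y hy => ?_⟩
  have h20 : (2 : I) ≠ 0 := by
    intro h
    have : 2 = 0 := congrArg Fin.val h
    omega
  have h21 : (2 : I) ≠ 1 := by
    intro h
    have : 2 = 1 := congrArg Fin.val h
    omega
  have h2l : (2 : I) ≠ Fin.last _ := by
    intro h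
    have : 2 = Dim.n + 2 := congrArg Fin.val h
    omega
  have a1 := hy 0
  have a2 := hy 1
  have a3 := hy 2
  have a4 := le_abs_self T
  have a5 := le_abs_self a
  have a6 := abs_nonneg T
  have a7 := abs_nonneg a
  refine ⟨fun i => if i = 0 then a else if i = 1 then y 1 else if i = Fin.last _ then y 0 - a + y 1
    else if i = 2 then y 2 else T, by simp, fun i hi => ?_, ?_⟩
  · simp only [if_neg hi]
    split_ifs <;> omega
  · funext k
    have hk : k = 0 ∨ k = 1 ∨ k = 2 := by revert k; decide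
    rcases hk with rfl | rfl | rfl
    · show psa _ 0 = _
      simp [psa, one_ne, last_ne0, last_ne1]
    · show psa _ 1 = _
      simp [psa, one_ne]
    · show psa _ 2 = _
      simp [psa, h20, h21, h2l]

theorem psb_on (hn : 0 < Dim.n) : Onto 1 psb := by
  intro a T
  obtain ⟨T', h⟩ := psa_on hn a T
  refine ⟨T', fun y hy => ?_⟩
  obtain ⟨x, h1, h2, h3⟩ := h y hy
  refine ⟨swp.symm x, ?_, fun i hi => ?_, ?_⟩
  · show x (Equiv.swap 0 1 1) = a
    rw [Equiv.swap_apply_right, h1]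
  · refine h2 (Equiv.swap 0 1 i) (fun e => hi ?_)
    rw [Equiv.swap_apply_eq_iff, Equiv.swap_apply_left] at e
    exact e
  · show res (psa (swp (swp.symm x))) = y
    rw [AddEquiv.apply_symm_apply, h3]

theorem lane_ev {j : I} {w u : V → Prop} {B : BV → BC} {Y : V → Prop} {ψ : V ≃+ V}
    (hψ : ψ (ee j) = ee 0) (hon : Onto j ψ)
    (hB : VB B) (hY : Ray j w (fun x => B (res (ψ x))) u Y) (T : ℤ)
    (hw : ∀ x : V, (∀ i, T ≤ x i) → ¬ w x)
    (hu : ∀ x x' : V, (∀ i, T ≤ x i) → (∀ i, T ≤ x' i) → x j = x' j → (u x ↔ u x')) :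
    ∃ T', T ≤ T' ∧ ∀ x : V, (∀ i, T' ≤ x i) → ¬ u x := by
  by_cases h : ∃ x : V, (∀ i, T ≤ x i) ∧ u x
  · obtain ⟨x, h1, h2⟩ := h
    have h0 := h1 j
    refine ⟨x j + 1, by omega, fun x' h3 h4 => ?_⟩
    have h5 := h3 j
    obtain ⟨T', hT⟩ := hon (x j + 1) T
    obtain ⟨y, y1, y2, y3⟩ := long_VB hB (x' j - x j - 1).toNat T'
    obtain ⟨z, z1, z2, z3⟩ := hT y y1
    have h6 : ∀ a : ℤ, 0 ≤ a → ∀ i, T ≤ (z - ee j + a • ee j : V) i := by
      intro a ha i
      by_cases hi : i = j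
      · subst hi; simp; omega
      · simpa [ee_ne hi] using z2 i hi
    have h7 : ∀ a : ℤ, res (ψ (z - ee j + (a + 1) • ee j)) = y + a • e0 := by
      intro a
      rw [show z - ee j + (a + 1) • ee j = z - (-a) • ee j by rw [add_smul]; simp,
        pull_sh hψ, z3]
      simp
    apply ray_uniq hY (z - ee j) (x' j - x j) (by omega)
    · rw [hu _ x (by simpa using h6 0 le_rfl) h1 (by simp; omega)]
      exact h2
    · rw [hu _ x' (h6 _ (by omega)) (fun i => by have := h3 i; omega) (by simp; omega)]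
      exact h4
    · exact fun i h8 _ => hw _ (h6 i (by omega))
    · rw [sub_add_cancel, z3]; exact y2
    · intro i hi
      simp only [h7]
      exact y3 i hi
  · exact ⟨T, le_rfl, fun x h1 h2 => h ⟨x, h1, h2⟩⟩

theorem cv_sub_one (n : ℤ) : cv (n + 1) - 1 = cv n := by funext i; simp [cv]

theorem site_deg (hn : 0 < Dim.n) {C : Conf} (hC : C.ok) (h2 : ¬ Two C.M) {SB SC : ℕ → BV}
    (hB : BG C.B1 SB) (hB' : BG C.B2 SC) (l : ℕ) {L L' : ℕ} {τ Q : ℤ} (hQ0 : 0 < Q)
    (hQ : QQ ^ (L + 1) ∣ Q) (hQ2 : QQ ^ (L' + 1) ∣ Q) (i2 : inB SB L τ) (i3 : inB SC L' τ) :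
    ∃ g, Thin l 0 (fun j => C.row (τ + j * Q) = g) := by
  have hM := hC.gm
  obtain ⟨T, hT⟩ : ∃ T, ∀ x : V, (∀ i, T ≤ x i) → ∀ j, ¬ (C.M x).w j := by
    have : ∀ j, ∃ T, ∀ a, T ≤ a → ¬ Wl C.M j a := by
      intro j
      by_cases h : ∃ a, Wl C.M j a
      · obtain ⟨a, ha⟩ := h
        exact ⟨a + 1, fun b hb h3 => h2 ⟨j, a, b - a, by omega, ha, by simpa using h3⟩⟩
      · exact ⟨0, fun a _ h3 => h ⟨a, h3⟩⟩
    choose T hT using this
    refine ⟨Finset.univ.sup' ⟨0, Finset.mem_univ _⟩ T, fun x hx j => ?_⟩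
    rw [w_iff hM]
    apply hT j
    exact le_trans (Finset.le_sup' T (Finset.mem_univ j)) (hx j)
  have nb : ∀ x : V, (∀ i, T ≤ x i) → ∀ j, ¬ (C.M x).big j := fun x hx j h => hT x hx j h.1
  have hc : ∀ x x' : V, (∀ i, T ≤ x i) → (∀ i, T ≤ x' i) → (C.M x).c = (C.M x').c :=
    fun x x' h3 h4 => reg_const T (fun x => (C.M x).c) (fun _ => True)
      (fun j _ x hx => ((hM x).c1 j (nb x hx j)).symm) x x' h3 h4 (by simp)
  have hs : ∀ x x' : V, (∀ i, T ≤ x i) → (∀ i, T ≤ x' i) → (C.M x).sc = (C.M x').sc := by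
    intro x x' h3 h4
    refine reg_const T (fun x => (C.M x).sc) (fun _ => True) (fun j _ x hx => ?_) x x' h3 h4 (by simp)
    funext i
    by_cases hi : j = i
    · subst hi; exact ((hM x).s3 j (hT x hx j)).symm
    · exact ((hM x).s1 i j hi).symm
  obtain ⟨T1, t1, u1⟩ := lane_ev psa_e0 (psa_on hn) hC.vb1 hC.r1 T (fun x hx => hT x hx 0) (fun x x' h3 h4 h5 =>
    Eq.to_iff (reg_const T (fun x => (C.M x).u1) (fun j => j ≠ 0)
      (fun j hj x hx => propext ((hM x).l1 j hj (Or.inl (nb x hx j))).symm) x x' h3 h4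
      (fun j hj => by
        have : j = 0 := by simpa using hj
        rw [this, h5])))
  obtain ⟨To, t0, uo⟩ := lane_ev psb_e1 (psb_on hn) hC.vb2 hC.ro T (fun x hx => hT x hx 1) (fun x x' h3 h4 h5 =>
    Eq.to_iff (reg_const T (fun x => (C.M x).uo) (fun j => j ≠ 1)
      (fun j hj x hx => propext ((hM x).o1 j hj (Or.inl (nb x hx j))).symm) x x' h3 h4
      (fun j hj => by
        have : j = 1 := by simpa using hj
        rw [this, h5])))
  have ha : ∀ n : ℕ, (C.M (cv (T + n))).a = (C.M (cv T)).a ∧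
      (C.M (cv (T + n))).cnt = ((C.M (cv T)).cnt + n) % QQ := by
    intro n
    induction n with
    | zero =>
      have := (hM (cv T)).k0
      simp only [Nat.cast_zero, add_zero, true_and]
      exact (Int.emod_eq_of_lt this.1 this.2).symm
    | succ n ih =>
      have h3 : ∀ i, T ≤ cv (T + (n + 1 : ℕ)) i := fun i => by simp [cv]; omega
      have e : cv (T + (n + 1 : ℕ)) - 1 = cv (T + n) := by
        push_cast; rw [← add_assoc, cv_sub_one]
      constructor
      · funext j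
        rw [← ih.1, ← e]
        exact propext ((hM _).a3 j (hT _ h3 j) (hT _ h3 0))
      · rw [(hM _).k2 (hT _ h3 0), e, ih.2, Int.emod_add_emod]
        push_cast; rw [add_assoc]
  have hbg : ∀ a i : ℤ, C.g1 (cv (τ + a * Q) - i • ee 0) = C.g1 (cv τ - i • ee 0) :=
    fun a i => by rw [g1_cv, g1_cv]; exact bg_inv hB i2 (hQ.mul_left a) i
  have hbg' : ∀ a i : ℤ, C.g2 (cv (τ + a * Q) - i • ee 1) = C.g2 (cv τ - i • ee 1) :=
    fun a i => by rw [g2_cv, g2_cv]; exact bg_inv hB' i3 (hQ2.mul_left a) i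
  have ray : ∀ (j : I) (w u : V → Prop) (B : V → BC) (Y : V → Prop), Ray j w B u Y →
      (∀ a i : ℤ, B (cv (τ + a * Q) - i • ee j) = B (cv τ - i • ee j)) →
      (rb (B (cv τ)) → ∃ i : ℕ, cn (B (cv τ - (i : ℤ) • ee j))) → ∃ s : ℕ, ∀ T' : ℤ,
      (∀ x : V, (∀ i, T' ≤ x i) → ¬ u x) → ∀ a : ℤ, T' + s + 1 ≤ τ + a * Q →
      ¬ Y (cv (τ + a * Q)) := by
    intro j w u B Y hY hb hback
    obtain ⟨s, hs'⟩ : ∃ s : ℕ, rb (B (cv τ)) → cn (B (cv τ - (s : ℤ) • ee j)) := by
      by_cases h : rb (B (cv τ))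
      · obtain ⟨s, h3⟩ := hback h
        exact ⟨s, fun _ => h3⟩
      · exact ⟨0, fun h3 => absurd h3 h⟩
    refine ⟨s, fun T' hu a h3 h4 => ?_⟩
    have h5 := ((hY _).1.1 h4).1
    rw [show B (cv (τ + a * Q)) = B (cv τ) by simpa using hb a 0] at h5
    obtain ⟨i, h6, h7⟩ := ray_back hY s _ h4 (by rw [hb]; exact hs' h5)
    refine hu _ (fun k => ?_) h7
    by_cases hk : k = j
    · subst hk; simp [cv]; omega
    · simp [cv, ee_ne hk]; omega
  obtain ⟨s, ray1⟩ := ray 0 _ _ _ _ hC.r1 hbg (fun h => by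
    simp only [g1_cv]
    exact bg_back hB i2 (by simpa using (show C.g1 (cv τ) = _ by simpa using g1_cv C τ 0) ▸ h))
  obtain ⟨s', rayo⟩ := ray 1 _ _ _ _ hC.ro hbg' (fun h => by
    simp only [g2_cv]
    exact bg_back hB' i3 (by simpa using (show C.g2 (cv τ) = _ by simpa using g2_cv C τ 0) ▸ h))
  obtain ⟨J, hJ⟩ : ∃ J : ℕ, ∀ j : ℕ, J ≤ j → T1 + s + 1 ≤ τ + j * Q ∧ To + s' + 1 ≤ τ + j * Q := by
    refine ⟨(T1 + s + 1 - τ).toNat + (To + s' + 1 - τ).toNat, fun j hj => ?_⟩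
    have : (j : ℤ) ≤ j * Q := by nlinarith
    omega
  obtain ⟨Q', hQ'⟩ : QQ ∣ Q := (dvd_pow_self _ (by omega)).trans hQ
  refine ⟨C.row (τ + J * Q), thin_ev J (fun j hj => ?_)⟩
  have a1 := hJ j hj
  have a2 := hJ J le_rfl
  have reg : ∀ T' n : ℤ, T' ≤ n → ∀ i, T' ≤ cv n i := fun T' n h i => h
  have ha' : ∀ n : ℤ, T ≤ n → (C.M (cv n)).a = (C.M (cv T)).a ∧
      (C.M (cv n)).cnt = ((C.M (cv T)).cnt + (n - T)) % QQ := by
    intro n hn
    have := ha (n - T).toNat
    rwa [Int.toNat_of_nonneg (by omega), add_sub_cancel] at this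
  have acc : ∀ n : ℤ, T ≤ n → ¬ (C.M (cv n)).acc := fun n hn h =>
    hT _ (reg T n hn) 1 (((hM _).ac.1 h).2.1 1 one_ne).1
  apply Sy.ext5
  · simp only [Conf.row, Conf.z]
    apply Mn.ext8
    · funext i
      exact propext (iff_of_false (hT _ (reg _ _ (by omega)) i) (hT _ (reg _ _ (by omega)) i))
    · rw [(ha' (τ + j * Q) (by omega)).1, (ha' (τ + J * Q) (by omega)).1]
    · rw [(ha' (τ + j * Q) (by omega)).2, (ha' (τ + J * Q) (by omega)).2, hQ',
        Int.emod_eq_emod_iff_emod_sub_eq_zero]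
      exact Int.emod_eq_zero_of_dvd ⟨(j - J) * Q', by ring⟩
    · exact hs _ _ (reg _ _ (by omega)) (reg _ _ (by omega))
    · exact hc _ _ (reg _ _ (by omega)) (reg _ _ (by omega))
    · exact iff_of_false (u1 _ (reg _ _ (by omega))) (u1 _ (reg _ _ (by omega)))
    · exact iff_of_false (uo _ (reg _ _ (by omega))) (uo _ (reg _ _ (by omega)))
    · exact iff_of_false (acc _ (by omega)) (acc _ (by omega))
  · simpa [Conf.row, Conf.z] using (hbg j 0).trans (hbg J 0).symm
  · simpa [Conf.row, Conf.z] using (hbg' j 0).trans (hbg' J 0).symm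
  · exact iff_of_false (ray1 T1 u1 j a1.1) (ray1 T1 u1 J a2.1)
  · exact iff_of_false (rayo To uo j a1.2) (rayo To uo J a2.2)

/-- The forbidden words: a full period of a centre without any lane. -/
def Bad (l : ℕ) (y : ℤ → Sy) : Prop :=
  (y 0).m.w 0 ∧ (y l).m.w 0 ∧ (∀ n : ℤ, 0 < n → n < l → ¬ (y n).m.w 0) ∧ cen (eff (y 0).m.c) ∧
    (∀ j, (y 0).m.sc j ≤ 5) ∧ ∀ n : ℤ, 0 ≤ n → n < l → ¬ (y n).m.u1

theorem add_small {h a n : ℤ} (hh : 0 < h) (h0 : 0 ≤ n) (h1 : n < h) :
    ((n + a) / h = a / h ∨ (n + a) / h = a / h + 1) ∧ (a % h = 0 → (n + a) / h = a / h) := by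
  have h2 := Int.mul_ediv_add_emod a h
  have h3 := Int.emod_nonneg a hh.ne'
  have h4 := Int.emod_lt_of_pos a hh
  by_cases h5 : n + a % h < h
  · have := ((Int.ediv_emod_unique (a := n + a) (r := n + a % h) (q := a / h) hh).2
      ⟨by linarith, by omega, h5⟩).1
    exact ⟨Or.inl this, fun _ => this⟩
  · have := ((Int.ediv_emod_unique (a := n + a) (r := n + a % h - h) (q := a / h + 1) hh).2
      ⟨by linarith, by omega, by omega⟩).1
    exact ⟨Or.inr this, fun _ => by omega⟩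

theorem succ_div {j : I} (hj : j ≠ 0) {a : ℤ} (h : a % mm 1 j ≤ 5) :
    (a + 1) / mm 1 j = a / mm 1 j := by
  have h7 := mm_seven 1 hj
  have h2 := Int.mul_ediv_add_emod a (mm 1 j)
  have h3 := Int.emod_nonneg a (mm1_pos j).ne'
  exact ((Int.ediv_emod_unique (r := a % mm 1 j + 1) (mm1_pos j)).2
    ⟨by linarith, by omega, by omega⟩).1

theorem no_bad {C : Conf} (hC : C.ok) {l : ℕ} (hl : 1 ≤ l) : ¬ Bad l C.row := by
  rintro ⟨b1, b2, b3, b4, b5, b6⟩
  obtain ⟨h, o, A, h1, _, hA, hM⟩ := extract hC.gm ⟨0, 0, l, by omega, b1, by rw [zero_add]; exact b2⟩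
  have hh : 0 < h := by omega
  simp only [Conf.row, Conf.z, (hM.1 _).1, (hM.1 _).2.1, (hM.1 _).2.2] at b1 b2 b3 b4 b5 b6
  simp only [physM, cv, eff_clamp] at b1 b2 b3 b4 b5
  have h3 : h = l := by
    have h4 : h ∣ l := by
      have := dvd_sub (Int.dvd_of_emod_eq_zero b2) (Int.dvd_of_emod_eq_zero b1)
      simpa using this
    have h5 := Int.le_of_dvd (by omega) h4
    by_contra h6
    apply b3 h hh (by omega)
    simpa using b1
  obtain ⟨D, h4, h5⟩ := (hA _).1.ce b4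
  have h6 := h4 0
  simp only [mm_zero] at h6
  apply b6 (D 0) h6.1 (by omega)
  have h7 : idx (HH h) o (cv (D 0)) = idx (HH h) o (cv 0) := by
    funext j
    rw [idx_HH hh, idx_HH hh]
    obtain ⟨h8, h9⟩ := add_small (a := o j) hh h6.1 h6.2
    simp only [cv, zero_add] at b1 b5 ⊢
    by_cases hj : j = 0
    · subst hj; rw [h9 b1]
    · rcases h8 with h8 | h8
      · rw [h8]
      · rw [h8, succ_div hj (b5 j)]
  rw [hM.2 _ (h7 ▸ fine_cen b4)]
  refine ⟨1, D, one_ne, ?_, ?_⟩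
  · exact (congrArg (fun U => (A U).rib 1) h7).trans (h5 1)
  · rw [zero_add] at b1
    simp only [cv]
    rw [Int.add_emod, b1, add_zero, Int.emod_emod, Int.emod_eq_of_lt h6.1 h6.2]

end Pool.Agent.Lib.MP_4b554f_an.One
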