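import Pool.Agent.Lib.MP_4b554f_an.One.Arith

/-!
Each row of period `l` forces a nearby row at a prescribed relative position.
-/

set_option autoImplicit false
set_option linter.unusedSimpArgs false
set_option linter.unnecessarySeqFocus false
set_option linter.unusedVariables false
set_option linter.unusedSectionVars false

namespace Pool.Agent.Lib.MP_4b554f_an.One

open Pool.Agent.Lib.MP_4b554f_an.All

variable [Dim]

/-- The data attached to a row. -/
structure RowOK (l : ℕ) (C : Conf) (SB : Bool → ℕ → BV) (S : ℕ → V) (h u : ℤ) (e : ℕ) : Prop where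
  ok : C.ok
  bg : BG C.B1 (SB true)
  bg' : BG C.B2 (SB false)
  nd : ND C h S ∨ (¬ Two C.M ∧ h = 1)
  cmp : ∀ k j, NN (mm 2) (mm h) (HH h) k j ∣ S (k + 1) j - S k j
  fac : h = l ^ e * u
  upos : 0 < u
  ndvd : ¬ (l : ℤ) ∣ u
  md : h % QQ = 1

theorem step_lemma (hn0 : 0 < Dim.n) {ι : Type*} {C : ι → Conf} {SB : ι → Bool → ℕ → BV} {S : ι → ℕ → V} {h u : ι → ℤ} {e : ι → ℕ}
    {l : ℕ} (hl : l.Prime) (hl11 : 11 < l) (hl2 : (l : ℤ) % QQ = 1)
    (hR : ∀ q, RowOK l (C q) (SB q) (S q) (h q) (u q) (e q)) (Nb : Finset ι) {p : ι}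
    (hpN : p ∈ Nb) (hp : h p = l) {N K Hm : ℕ} (hN : l ≤ N) (hKe : ∀ q ∈ Nb, e q ≤ K + 1)
    (hHm : ∀ q ∈ Nb, h q ≤ Hm) (hpig : Nb.card * (2 * N + 1) * Hm < 2 ^ (K + 1))
    (hval : ∀ q ∈ Nb, 2 ≤ e q → ∀ c : ℤ, |c| ≤ N + 5 * l → ∀ k, K + 1 < e q * (k + 1) →
      ¬ (7 : ℤ) ^ (k + 1) ∣ S q k 1 - S p k 1 + c - 3 * h q - h q * 7 ^ k)
    (nocheat : ∀ (t Q : ℤ) (g : ι → ℤ → Sy), (∀ q ∈ Nb, ∀ n : ℤ, |n| ≤ N →
      Thin l 10 (fun j => (C q).row (t + n + j * Q) = g q n)) → ¬ Bad l (g p))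
    (c : V) (hc0 : c 0 = 0) (hc : ∀ j, 0 ≤ c j ∧ c j ≤ 4) :
    ∃ q ∈ Nb, h q = l ∧ ∃ G : V,
      (∀ j, NN (mm 2) (mm l) (HH l) (K + 1) j ∣ S q (K + 1) j - S p (K + 1) j - G j) ∧
      (∀ j, |G j| ≤ N + 5 * l) ∧
      ∀ j, j ≠ 0 → (1 - c j) * l < G j - G 0 ∧ G j - G 0 ≤ (3 - c j) * l := by
  classical
  have hl0 : (0 : ℤ) < l := by omega
  have hP : Prime (l : ℤ) := Nat.prime_iff_prime_int.1 hl
  have hpos : ∀ q, 0 < h q := fun q => by rw [(hR q).fac]; have := (hR q).upos; positivity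
  have ndp : ND (C p) l (S p) := by
    rcases (hR p).nd with h1 | h1
    · rwa [hp] at h1
    · omega
  obtain ⟨ξ, hξ⟩ : ∃ ξ : V, ∀ j, ξ j = c j * l + (S p (K + 1) j - S p (K + 1) 0) % l :=
    ⟨_, fun _ => rfl⟩
  have x0 : ξ 0 = 0 := by simp [hξ, hc0]
  have x1 : ∀ j, c j * l ≤ ξ j ∧ ξ j < (c j + 1) * l := by
    intro j
    have h1 := Int.emod_nonneg (S p (K + 1) j - S p (K + 1) 0) hl0.ne'
    have h2 := Int.emod_lt_of_pos (S p (K + 1) j - S p (K + 1) 0) hl0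
    rw [hξ]; constructor <;> linarith
  have x2 : ∀ j, 0 ≤ ξ j ∧ ξ j < 5 * l := by
    intro j
    have h1 := x1 j
    have h2 := hc j
    constructor <;> nlinarith
  obtain ⟨t1, ht1⟩ := crt_target hl2 K
    (fun j => NN (mm 2) (mm l) (HH l) K j + ξ j - S p (K + 1) j) (fun j => by
      have h1 : ∀ i, (l : ℤ) ∣ NN (mm 2) (mm l) (HH l) K i := fun i =>
        (Dvd.intro _ rfl : (l : ℤ) ∣ HH l i).trans (NN_dvd (mm 2) (mm l) (HH l) i (Nat.zero_le K))
      have h2 := dvd_sub (dvd_add (dvd_sub (h1 j) (h1 0)) (Dvd.intro_left (c j) rfl))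
        (Int.dvd_self_sub_emod (x := S p (K + 1) j - S p (K + 1) 0) (m := l))
      rw [x0, hξ]
      exact dvd_trans h2 (dvd_of_eq (by ring)))
  have hQ1 : ∀ j, NN (mm 2) (mm l) (HH l) (K + 1) j ∣ 2 * l ^ (K + 1) * Q1 ^ (K + 2) := by
    intro j
    by_cases hj : j = 0
    · subst hj; rw [NM_zero]; exact Dvd.intro _ rfl
    · rw [NM_ne0 _ _ hj]
      exact mul_dvd_mul ((dvd_pow_self _ (by omega)).mul_left 2) (pow_dvd_pow_of_dvd (mm1_dvd j) _)
  have cu : ∀ q, IsCoprime (u q) QQ := fun q => by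
    have := copQQ (hR q).md
    rw [(hR q).fac] at this
    exact this.of_mul_left_right
  have cl : ∀ q, IsCoprime (u q) l := fun q => ((Prime.coprime_iff_not_dvd hP).2 (hR q).ndvd).symm
  obtain ⟨i, hi⟩ := pigeon ((Nb ×ˢ Finset.Icc (-(N : ℤ)) N) ×ˢ Finset.range Hm)
    (fun z a => e z.1.1 = 1 ∧ 1 < u z.1.1 ∧ 2 * h z.1.1 ^ (K + 1) ∣
      t1 + 2 * l ^ (K + 1) * Q1 ^ (K + 2) * a + z.1.2 + S z.1.1 (K + 1) 0 -
        (NN (mm 2) (mm (h z.1.1)) (HH (h z.1.1)) K 0 + z.2)) (2 ^ (K + 1)) (by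
      rintro ⟨⟨q, n⟩, r⟩ _ a a' a1 a2 ⟨a3, a4, a5⟩ ⟨_, _, a6⟩
      simp only at a3 a4 a5 a6
      have a7 := dvd_sub a5 a6
      rw [show ∀ X Y Z : ℤ, t1 + X * a + n + Y - Z - (t1 + X * a' + n + Y - Z) = X * (a - a') from
        fun X Y Z => by ring] at a7
      have a8 : u q ^ (K + 1) ∣ 2 * h q ^ (K + 1) := by
        rw [(hR q).fac, mul_pow]; exact (Dvd.intro_left _ rfl).mul_left 2
      have a9 : IsCoprime (u q ^ (K + 1)) (2 * l ^ (K + 1) * Q1 ^ (K + 2)) := by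
        apply IsCoprime.pow_left
        exact (((cu q).of_isCoprime_of_dvd_right two_dvd).mul_right (cl q).pow_right).mul_right
          ((cu q).of_isCoprime_of_dvd_right Q1_dvd).pow_right
      have a10 := a9.dvd_of_dvd_mul_left (a8.trans a7)
      have a11 : (2 : ℤ) ^ (K + 1) ≤ u q ^ (K + 1) := pow_le_pow_left₀ (by norm_num) a4 _
      have a12 : (a : ℤ) < 2 ^ (K + 1) := by exact_mod_cast a1
      have a13 : (a' : ℤ) < 2 ^ (K + 1) := by exact_mod_cast a2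
      have := Int.eq_zero_of_abs_lt_dvd a10 (by rw [abs_lt]; omega)
      omega) (by
      simp only [Finset.card_product, Int.card_Icc, Finset.card_range]
      rwa [show ((N : ℤ) + 1 - -N).toNat = 2 * N + 1 by omega])
  obtain ⟨Uu, hU1, hU2, hU3, hU4⟩ : ∃ Uu : ℤ, (∀ q ∈ Nb, u q ∣ Uu) ∧ IsCoprime Uu QQ ∧
      IsCoprime Uu l ∧ 0 < Uu :=
    ⟨∏ q ∈ Nb, u q, fun q hq => Finset.dvd_prod_of_mem _ hq, IsCoprime.prod_left (fun q _ => cu q),
      IsCoprime.prod_left (fun q _ => cl q), Finset.prod_pos (fun q _ => (hR q).upos)⟩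
  have g1 : ∀ q ∈ Nb, h q ∣ 2 * l ^ (K + 1) * Uu ^ (K + 1) := fun q hq => by
    rw [(hR q).fac]
    exact mul_dvd_mul ((pow_dvd_pow _ (hKe q hq)).mul_left 2)
      ((hU1 q hq).trans (dvd_pow_self _ (by omega)))
  have g2 : IsCoprime (2 * l ^ (K + 1) * Uu ^ (K + 1) : ℤ) Q1 :=
    (IsCoprime.mul_left two_cop
      ((copQQ hl2).of_isCoprime_of_dvd_right Q1_dvd).pow_left).mul_left
      (hU2.of_isCoprime_of_dvd_right Q1_dvd).pow_left
  obtain ⟨c', L, hL, hin⟩ := greedy_inert ((Nb ×ˢ Finset.Icc (-(N : ℤ)) N) ×ˢ (Finset.univ : Finset (Option Bool)))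
    (fun z k t => z.2.elim (inert (dM (h z.1.1) (S z.1.1) k (cv (t + z.1.2))))
      (fun b => inB (SB z.1.1 b) (k + 1) (t + z.1.2))) (2 * l ^ (K + 1) * Uu ^ (K + 1)) (by
      rintro ⟨⟨q, n⟩, b⟩ hz k t c1
      have hq : q ∈ Nb := (Finset.mem_product.1 (Finset.mem_product.1 hz).1).1
      cases b with
      | none => exact stab_M (hpos q) (g1 q hq) (S q) n k t c1
      | some b => exact stab_B _ (SB q b) n k t c1) (K + 1) (by
      rintro ⟨⟨q, n⟩, b⟩ hz k t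
      have hq : q ∈ Nb := (Finset.mem_product.1 (Finset.mem_product.1 hz).1).1
      cases b with
      | none => exact ach_M (hpos q) (g1 q hq) g2 (S q) n k t
      | some b => exact ach_B g2 (SB q b) n k t)
      (t1 + 2 * l ^ (K + 1) * Q1 ^ (K + 2) * i)
  obtain ⟨t, htt⟩ : ∃ t, t = t1 + 2 * l ^ (K + 1) * Q1 ^ (K + 2) * i +
    2 * l ^ (K + 1) * Uu ^ (K + 1) * Q1 ^ (K + 1 + 1) * c' := ⟨_, rfl⟩
  rw [← htt] at hin
  have P1 : ∀ j, NN (mm 2) (mm l) (HH l) (K + 1) j ∣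
      t + S p (K + 1) j - (NN (mm 2) (mm l) (HH l) K j + ξ j) := by
    intro j
    have := dvd_add (ht1 j) ((hQ1 j).mul_right (i + Uu ^ (K + 1) * c'))
    exact dvd_trans this (dvd_of_eq (by rw [htt]; ring))
  have memT : ∀ n : ℤ, |n| ≤ N → n ∈ Finset.Icc (-(N : ℤ)) N := fun n hn =>
    Finset.mem_Icc.2 (abs_le.1 hn)
  have P2 : ∀ q ∈ Nb, ∀ n : ℤ, |n| ≤ N → e q = 1 → 1 < u q → ∀ r, 0 ≤ r → r < h q →
      ¬ 2 * h q ^ (K + 1) ∣ t + n + S q (K + 1) 0 - (NN (mm 2) (mm (h q)) (HH (h q)) K 0 + r) := by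
    intro q hq n hn a1 a2 r a3 a4 a5
    have a6 := hHm q hq
    refine hi ((q, n), r.toNat) (Finset.mem_product.2 ⟨Finset.mem_product.2 ⟨hq, memT n hn⟩,
      Finset.mem_range.2 (by omega)⟩) ⟨a1, a2, ?_⟩
    simp only [Int.toNat_of_nonneg a3]
    have a7 : 2 * h q ^ (K + 1) ∣ 2 * l ^ (K + 1) * Uu ^ (K + 1) := by
      rw [(hR q).fac, a1, pow_one, mul_pow, mul_assoc]
      exact mul_dvd_mul_left _ (mul_dvd_mul_left _ (pow_dvd_pow_of_dvd (hU1 q hq) _))
    have := dvd_sub a5 (a7.mul_right (Q1 ^ (K + 1 + 1) * c'))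
    exact dvd_trans this (dvd_of_eq (by rw [htt]; ring))
  have hW : ¬ (l : ℤ) ∣ (QQ * Uu) ^ (L + 2) :=
    (Prime.coprime_iff_not_dvd hP).1 ((copQQ hl2).mul_right hU3.symm).pow_right
  have hW' : ∀ q ∈ Nb, (QQ * u q) ^ (L + 2) ∣ (QQ * Uu) ^ (L + 2) := fun q hq =>
    pow_dvd_pow_of_dvd (mul_dvd_mul_left _ (hU1 q hq)) _
  have hW2 : QQ ^ (L + 2) ∣ (QQ * Uu) ^ (L + 2) := pow_dvd_pow_of_dvd (Dvd.intro _ rfl) _
  by_contra hcon
  have all : ∀ q n, ∃ g, q ∈ Nb → |n| ≤ (N : ℤ) → Thin l 10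
      (fun j => (C q).row (t + n + j * (l ^ (K + 1) * (QQ * Uu) ^ (L + 2))) = g) := by
    intro q n
    by_cases hqn : q ∈ Nb ∧ |n| ≤ (N : ℤ)
    swap
    · exact ⟨(C q).row 0, fun a b => absurd ⟨a, b⟩ hqn⟩
    obtain ⟨hq, hn⟩ := hqn
    obtain ⟨k1, b1, b2⟩ := hin ((q, n), none)
      (Finset.mem_product.2 ⟨Finset.mem_product.2 ⟨hq, memT n hn⟩, Finset.mem_univ _⟩)
    obtain ⟨k2, b3, b4⟩ := hin ((q, n), some true)
      (Finset.mem_product.2 ⟨Finset.mem_product.2 ⟨hq, memT n hn⟩, Finset.mem_univ _⟩)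
    obtain ⟨k3, b5, b6⟩ := hin ((q, n), some false)
      (Finset.mem_product.2 ⟨Finset.mem_product.2 ⟨hq, memT n hn⟩, Finset.mem_univ _⟩)
    simp only [Option.elim] at b2 b4 b6
    rcases (hR q).nd with nd | nd
    swap
    · obtain ⟨g, hg⟩ := site_deg hn0 (hR q).ok nd.1 (hR q).bg (hR q).bg' l
        (Q := l ^ (K + 1) * (QQ * Uu) ^ (L + 2)) (by have := QQ_pos; positivity)
        (((pow_dvd_pow _ (by omega)).trans hW2).mul_left _)
        (((pow_dvd_pow _ (by omega)).trans hW2).mul_left _) b4 b6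
      exact ⟨g, fun _ _ => thin_mono hg (by omega) (fun _ h => h)⟩
    have hE : ¬ Exc (h q) (S q) (e q) (K + 1) (t + n) := by
      rintro ⟨μ, m1, m2, m3, m4, m5⟩
      have hq2 := nd.1
      have pos := fun j => pos_of_dig (mm_ge le_rfl) (mm_ge hq2) (HH_pos (hpos q)) (hR q).cmp
        (x := cv (t + n)) (j := j) (fun k hk => m3 k hk j) (m4 j)
      have r3 : ∀ j, j ≠ 0 → (cv (t + n) j + S q 0 j) % HH (h q) j = 3 * h q := by
        intro j hj
        simp only [HH, cv]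
        rw [mod_HH (hpos q) (mm1_pos j), (m5 j hj).1, (m5 j hj).2]; ring
      have r0 : 0 ≤ (cv (t + n) 0 + S q 0 0) % HH (h q) 0 ∧
          (cv (t + n) 0 + S q 0 0) % HH (h q) 0 < h q := by
        refine ⟨Int.emod_nonneg _ (HH_pos (hpos q) 0).ne', ?_⟩
        simpa [HH] using Int.emod_lt_of_pos (cv (t + n) 0 + S q 0 0) (hpos q)
      have hn' := abs_le.1 hn
      by_cases e2 : 2 ≤ e q
      · have d1 : μ + 2 ≤ K + 1 := by nlinarith
        apply hval q hq e2 (n + ξ 1) (by have := x2 1; rw [abs_le]; omega) (μ + 1) m2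
        have d2 := pos 1
        have d3 := P1 1
        have d4 := cmp_dvd (hR p).cmp 1 (show μ + 1 ≤ K + 1 by omega)
        rw [r3 1 one_ne] at d2
        simp only [NM_ne0 _ _ one_ne, cv] at d2 d3 d4
        rw [mm_one] at d2 d3 d4
        have d5 := (Dvd.intro_left _ rfl).trans d2
        have d6 := ((pow_dvd_pow 7 (show μ + 1 + 1 ≤ K + 1 + 1 by omega)).mul_left _).trans
          ((Dvd.intro_left _ (one_mul _)).trans d3)
        have d7 := (Dvd.intro_left _ rfl).trans d4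
        have d8 : (7 : ℤ) ^ (μ + 1 + 1) ∣ l * 7 ^ (K + 1) := (pow_dvd_pow 7 d1).mul_left _
        have d9 := dvd_sub (dvd_add (dvd_sub d5 d6) d7) d8
        exact dvd_trans d9 (dvd_of_eq (by ring))
      · have e1 : e q = 1 := by
          rcases Nat.eq_zero_or_pos (e q) with h0 | h0
          · rw [h0] at m2; simp at m2
          · omega
        have hμ : μ = K := by rw [e1] at m1 m2; omega
        subst hμ
        by_cases u1 : 1 < u q
        · apply P2 q hq n hn e1 u1 _ r0.1 r0.2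
          have := pos 0
          rwa [NM_zero] at this
        · have hql : h q = l := by
            have := (hR q).upos
            rw [(hR q).fac, e1, show u q = 1 by omega]; simp
          apply hcon
          refine ⟨q, hq, hql, fun j => (cv (t + n) j + S q 0 j) % HH (h q) j - ξ j - n, fun j => ?_,
            fun j => ?_, fun j hj => ?_⟩
          · have d1 := pos j
            beta_reduce
            generalize (cv (t + n) j + S q 0 j) % HH (h q) j = r at d1 ⊢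
            rw [hql] at d1
            exact dvd_trans (dvd_sub d1 (P1 j)) (dvd_of_eq (by simp only [cv]; ring))
          · have d1 := x2 j
            beta_reduce
            rw [abs_le]
            by_cases hj : j = 0
            · subst hj; omega
            · rw [r3 j hj]; omega
          · have d1 := x1 j
            simp only [r3 j hj, x0]
            constructor <;> linarith [r0.1, r0.2, d1.1, d1.2]
    rw [(hR q).fac] at nd hE b2
    obtain ⟨g, hg⟩ := site_nd (hR q).ok (hR q).bg (hR q).bg' hl (by omega) (hR q).upos (hKe q hq) nd hW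
      (hW' q hq) b1.le b3 b5 b2 b4 b6 hE
    exact ⟨g, fun _ _ => hg⟩
  choose g hg using all
  apply nocheat t _ g (fun q hq n hn => hg q n hq hn)
  exact bad_gen hl hl11 ndp hW hW2 hL x0 x2 P1 (g p)
    (fun n a1 a2 => hg p n hpN (by rw [abs_le]; omega))

end Pool.Agent.Lib.MP_4b554f_an.One
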