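import Pool.Agent.Lib.MP_4b554f_an.All.Tower

/-!
Long ribbons far out, and ribbons of finite level in every direction.
-/

set_option autoImplicit false
set_option linter.unusedSimpArgs false
set_option linter.unnecessarySeqFocus false
set_option linter.unusedVariables false
set_option linter.unusedSectionVars false

namespace Pool.Agent.Lib.MP_4b554f_an.One

open Pool.Agent.Lib.MP_4b554f_an.All

variable [Dim]

theorem far {m : V} (hm : ∀ i, 2 ≤ m i) (β : V) (T : ℤ) :
    ∃ T' : ℤ, ∀ W : V, (∀ k, T' ≤ W k) → ∀ k, T ≤ PP m β W k := by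
  refine ⟨|T| + ∑ k, |β k|, fun W hW k => ?_⟩
  have h1 : |β k| ≤ ∑ k, |β k| :=
    Finset.single_le_sum (f := fun k => |β k|) (fun _ _ => abs_nonneg _) (Finset.mem_univ k)
  have h2 := hW k
  have h3 := hm k
  have h4 := le_abs_self T
  have h5 := le_abs_self (β k)
  have h6 := abs_nonneg T
  have h7 := abs_nonneg (β k)
  simp only [PP]
  nlinarith

/-- Centres followed by long stretches of a ribbon. -/
theorem longT {m : V} (hm : ∀ i, 2 ≤ m i) : ∀ (D : ℕ) (A : V → Cont) (T : ℤ), Valid m m A →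
    ∃ B, (∀ k, T ≤ B k) ∧ cen (eff (A B)) ∧ ∀ i : ℕ, i ≤ D → (A (B + (i : ℤ) • ee 0)).rib 0 ≠ none ∧
      (1 ≤ i → ¬ cen (eff (A (B + (i : ℤ) • ee 0)))) := by
  intro D
  induction D with
  | zero =>
    intro A T hA
    obtain ⟨β, A', _, h2⟩ := desub hm hm hA
    obtain ⟨T', hT⟩ := far hm β T
    have hr : rng m (upd 0 1 1) := rng_upd hm (by omega) (by have := hm 0; omega) (by simp)
    have hc : cen (eff (A (PP m β (fun _ => T') + upd 0 1 1))) := by
      rw [h2, dig_PP _ _ hr, Psi_eff_nz ⟨0, by simp [upd]⟩]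
      intro i; simp [ty, upd, cl]
    refine ⟨_, fun k => ?_, hc, fun i hi => ?_⟩
    · have := hT (fun _ => T') (fun _ => le_rfl) k
      have := (hr k).1
      simp only [Pi.add_apply]
      omega
    have : i = 0 := by omega
    subst this
    simp only [Nat.cast_zero, zero_smul, add_zero]
    exact ⟨(hA _).1.r1 0 (cen_lin hc 0), by omega⟩
  | succ D ih =>
    intro A T hA
    obtain ⟨β, A', h1, h2⟩ := desub hm hm hA
    obtain ⟨T', hT⟩ := far hm β T
    obtain ⟨B, hB, h3, h4⟩ := ih A' T' h1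
    have h0 := hm 0
    have hr0 : rng m (upd 0 0 0) := rng_upd hm (by omega) (by omega) (by simp)
    refine ⟨PP m β B + upd 0 0 0, fun k => ?_, ?_, fun i hi => ?_⟩
    · have := hT B hB k
      have := (hr0 k).1
      simp only [Pi.add_apply]
      omega
    · rw [h2, dig_PP _ _ hr0, idx_PP _ _ hr0, Psi_eff_z (by simp [upd])]
      exact h3
    · have a1 := Int.mul_ediv_add_emod (i : ℤ) (m 0)
      have a2 := Int.emod_nonneg (i : ℤ) (show m 0 ≠ 0 by omega)
      have a3 := Int.emod_lt_of_pos (i : ℤ) (show 0 < m 0 by omega)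
      have a4 : 0 ≤ (i : ℤ) / m 0 := Int.ediv_nonneg (by omega) (by omega)
      obtain ⟨q, hq⟩ := Int.eq_ofNat_of_zero_le a4
      have a5 : q ≤ D := by
        have : 2 * (q : ℤ) ≤ m 0 * q := by nlinarith
        rw [hq] at a1
        omega
      have hr : rng m (upd 0 (i % m 0) 0) := rng_upd hm a2 a3 (by simp)
      have e1 : PP m β B + upd 0 0 0 + (i : ℤ) • ee 0 =
          PP m β (B + (q : ℤ) • ee 0) + upd 0 (i % m 0) 0 := by
        funext k
        by_cases hk : k = 0
        · subst hk; simp [PP, upd]; rw [hq] at a1; linarith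
        · simp [PP, upd, hk, ee_ne hk]
      have ha : axs 0 (ty (upd 0 (i % m 0) 0)) := fun k hk => by simp [ty, upd, hk, cl]
      rw [e1, h2, dig_PP _ _ hr, idx_PP _ _ hr, Psi_r_axs ha]
      refine ⟨(h4 q a5).1, fun h5 => ?_⟩
      by_cases h6 : (i : ℤ) % m 0 = 0
      · rw [Psi_eff_z (by simp [upd, h6])]
        apply (h4 q a5).2
        rw [hq, h6] at a1
        by_contra h7
        have : q = 0 := by omega
        subst this
        simp at a1
        omega
      · rw [Psi_eff_nz ⟨0, by simpa [upd] using h6⟩]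
        intro hc
        exact lin_not_axs (cen_lin hc 0) ha

theorem back_stepj (j : I) {m m' β : V} (hm : ∀ i, 2 ≤ m i) {A A' : V → Cont}
    (h2 : ∀ U, A U = Psi m' (dig m β U) (A' (idx m β U))) (U : V)
    (ih : (A' (idx m β U)).rib j ≠ none →
      ∃ i : ℕ, cen (eff (A' (idx m β U - (i : ℤ) • ee j))))
    (h : (A U).rib j ≠ none) : ∃ i : ℕ, cen (eff (A (U - (i : ℤ) • ee j))) := by
  have h0 := hm j
  have hd := rng_dig hm β U j
  have hU := PP_idx m β U
  rw [h2] at h
  by_cases ha : axs j (ty (dig m β U))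
  · rw [Psi_r_axs ha] at h
    obtain ⟨i, hi⟩ := ih h
    have hr0 : rng m (upd j 0 0) := rng_upd hm (by omega) (by omega) (by simp)
    refine ⟨(dig m β U j + m j * i).toNat, ?_⟩
    have e1 : U - ((dig m β U j + m j * i).toNat : ℤ) • ee j =
        PP m β (idx m β U - (i : ℤ) • ee j) + upd j 0 0 := by
      rw [Int.toNat_of_nonneg (add_nonneg hd.1 (mul_nonneg (by omega) (by omega)))]
      funext k
      have := congrFun hU k
      by_cases hk : k = j
      · subst hk; simp [PP, upd] at this ⊢; linarith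
      · have h3 := cl_eq_zero.1 (ha k hk)
        simp [PP, upd, hk, ee_ne hk, h3] at this ⊢; linarith
    rw [e1, h2, dig_PP _ _ hr0, idx_PP _ _ hr0, Psi_eff_z (by simp [upd])]
    exact hi
  · by_cases hl : lin j (ty (dig m β U))
    · have hr : rng m (upd j 1 1) := rng_upd hm (by omega) (by omega) (by simp)
      refine ⟨(dig m β U j + m j - 1).toNat, ?_⟩
      have e1 : U - ((dig m β U j + m j - 1).toNat : ℤ) • ee j =
          PP m β (idx m β U - ee j) + upd j 1 1 := by
        rw [Int.toNat_of_nonneg (by omega)]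
        funext k
        have := congrFun hU k
        by_cases hk : k = j
        · subst hk; simp [PP, upd] at this ⊢; linarith
        · have h3 := cl_eq_one.1 (hl k hk)
          simp [PP, upd, hk, ee_ne hk, h3] at this ⊢; linarith
      rw [e1, h2, dig_PP _ _ hr, Psi_eff_nz ⟨j, by simp [upd]⟩]
      intro i; simp [ty, upd, cl]
    · rw [Psi_r_oth ha hl] at h
      exact absurd rfl h

/-- Every ribbon of the cell starts at a centre. -/
def Fine (A : V → Cont) (U : V) : Prop :=
  ∀ j, (A U).rib j ≠ none → ∃ i : ℕ, cen (eff (A (U - (i : ℤ) • ee j)))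

theorem fine_cen {A : V → Cont} {U : V} (h : cen (eff (A U))) : Fine A U :=
  fun j _ => ⟨0, by simpa using h⟩

theorem exists_hierj {m m' H : V} (hm : ∀ i, 2 ≤ m i) (hm' : ∀ i, 2 ≤ m' i) (hH : ∀ i, 0 < H i)
    {A : V → Cont} (hA : Valid m m' A) (o : V) :
    ∃ S : ℕ → V, S 0 = o ∧ Hier m m' H (fun x => A (idx H o x)) S ∧
      ∀ x L, inert (dgt m m' H S L x) → Fine A (idx H o x) := by
  obtain ⟨T, β, h0, hT⟩ := exists_tower hm hm' hA
  let S : ℕ → V := fun k => Nat.rec o (fun k s => s + β k * NN m m' H k) k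
  have hS : ∀ k, S (k + 1) = S k + β k * NN m m' H k := fun k => rfl
  have hmk : ∀ k i, 2 ≤ mk m m' k i := fun k i => by unfold mk; split_ifs; exacts [hm i, hm' i]
  have hN : ∀ k i, 0 < NN m m' H k i := by
    intro k i
    induction k with
    | zero => exact hH i
    | succ k ih => have := hmk k i; simp only [NN, Pi.mul_apply]; positivity
  have hq : ∀ k x j, idx (NN m m' H k) (S k) x j + β k j = (x j + S (k + 1) j) / NN m m' H k j := by
    intro k x j
    simp only [idx, hS, Pi.add_apply, Pi.mul_apply]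
    rw [← add_assoc, Int.add_mul_ediv_right _ _ (hN k j).ne']
  have hd : ∀ k x, dig (mk m m' k) (β k) (idx (NN m m' H k) (S k) x) = dgt m m' H S k x := by
    intro k x; funext j; simp only [dig, dgt, hq]
  have hi : ∀ k x, idx (mk m m' k) (β k) (idx (NN m m' H k) (S k) x) =
      idx (NN m m' H (k + 1)) (S (k + 1)) x := by
    intro k x; funext j
    show (idx (NN m m' H k) (S k) x j + β k j) / _ = _
    rw [hq, Int.ediv_ediv_of_nonneg (hN k j).le]
    rfl
  have hC : ∀ k x, T k (idx (NN m m' H k) (S k) x) =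
      Psi m' (dgt m m' H S k x) (T (k + 1) (idx (NN m m' H (k + 1)) (S (k + 1)) x)) := by
    intro k x; rw [hT, hd, hi]
  have hA0 : ∀ x, A (idx H o x) = T 0 (idx (NN m m' H 0) (S 0) x) := fun x => by rw [h0]; rfl
  refine ⟨S, rfl, ⟨?_, ?_, ?_, ?_⟩, ?_⟩
  · intro k j
    simp [hS]
  · intro R x x' L h1 h2
    simp only [hA0]
    apply down_ind (fun k => Rel R (T k (idx (NN m m' H k) (S k) x))
      (T k (idx (NN m m' H k) (S k) x'))) L
    · rw [hC, hC L x']; exact rel_inert (h1 L le_rfl) h2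
    · intro k hk ih
      rw [hC, hC k x']; exact rel_Psi (h1 k hk.le) ih
  · intro x L h1 h2
    simp only [hA0] at h2
    have := down_ind (fun k => cen (eff (T k (idx (NN m m' H k) (S k) x))) →
      ∃ μ, k ≤ μ ∧ μ < L ∧ (∀ l, k ≤ l → l < μ → ∀ j, dgt m m' H S l x j = 0) ∧
        ∀ j, dgt m m' H S μ x j = 1) L ?_ ?_ h2
    · obtain ⟨μ, _, h3, h4, h5⟩ := this
      exact ⟨μ, h3, fun k hk => h4 k (Nat.zero_le _) hk, h5⟩
    · intro hc
      rw [hC, Psi_eff_nz (inert_nz h1)] at hc
      exact absurd (cen_lin hc 0) (inert_lin h1 0)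
    · intro k hk ih hc
      rw [hC] at hc
      by_cases hz : ∀ j, dgt m m' H S k x j = 0
      · rw [Psi_eff_z hz] at hc
        obtain ⟨μ, h3, h4, h5, h6⟩ := ih hc
        refine ⟨μ, by omega, h4, fun l h7 h8 => ?_, h6⟩
        by_cases h9 : l = k
        · rw [h9]; exact hz
        · exact h5 l (by omega) h8
      · rw [Psi_eff_nz (by simpa using hz)] at hc
        exact ⟨k, le_rfl, hk, fun l h7 h8 => by omega, fun j => cl_eq_one.1 (hc j)⟩
  · intro x μ h1 h2
    simp only [hA0]
    apply down_ind (fun k => cen (eff (T k (idx (NN m m' H k) (S k) x))) ∧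
      ∀ j, (T k (idx (NN m m' H k) (S k) x)).rib j = some (dgt m m' H S (μ + 1) x)) μ
    · have hc : cen (ty (dgt m m' H S μ x)) := fun j => cl_eq_one.2 (h2 j)
      rw [hC, Psi_eff_nz ⟨0, by rw [h2]; decide⟩]
      refine ⟨hc, fun j => ?_⟩
      rw [Psi_r_lin (cen_lin hc j), if_neg (by rw [h2]; decide), hC]
      rfl
    · intro k hk ih
      rw [hC, Psi_eff_z (h1 k hk)]
      exact ⟨ih.1, fun j => by rw [Psi_r_axs (axs_of_z (h1 k hk) j)]; exact ih.2 j⟩
  · intro x L h1 j
    have e0 : idx H o x = idx (NN m m' H 0) (S 0) x := rfl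
    rw [e0, ← h0]
    apply down_ind (fun k => (T k (idx (NN m m' H k) (S k) x)).rib j ≠ none →
      ∃ i : ℕ, cen (eff (T k (idx (NN m m' H k) (S k) x - (i : ℤ) • ee j)))) L
    · intro h2
      rw [hC, inert_r h1] at h2
      exact absurd rfl h2
    · intro k hk ih
      apply back_stepj j (hmk k) (hT k)
      rw [hi]
      exact ih

end Pool.Agent.Lib.MP_4b554f_an.One
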